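import Pool.Agent.H38.T6.C2.Gram
import Pool.Agent.H38.T6.Main

set_option autoImplicit false

namespace Pool.Agent.H38.T6.C2

theorem cert : Cert 185 955 187 107 :=
  ⟨_, _, 269156, by norm_num, tinv_spec sym i01 i12 i23 i2, gn_spec (by norm_num) sym gram0 aut0,
    gn_spec (by norm_num) sym gram1 aut1, gn_spec (by norm_num) sym gram3 aut3,
    gn_spec (by norm_num) sym gram7 aut7, two_spec two, leaf_spec leafs⟩

end Pool.Agent.H38.T6.C2
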